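import Mathlib

set_option autoImplicit false

open Set Filter

namespace Pool.Agent.MP_aa8c71_an.H58

/-- Normal family in the sense of Montel: every sequence in `S` has a subsequence that converges
locally uniformly on `V` to a holomorphic function, or tends to infinity uniformly on every
compact subset of `V`. -/
def IsNormalOn (S : Set (ℂ → ℂ)) (V : Set ℂ) : Prop :=
  ∀ g : ℕ → ℂ → ℂ, (∀ k, g k ∈ S) → ∃ φ : ℕ → ℕ, StrictMono φ ∧
    ((∃ h : ℂ → ℂ, DifferentiableOn ℂ h V ∧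
        TendstoLocallyUniformlyOn (fun k => g (φ k)) h atTop V) ∨
      (∀ K ⊆ V, IsCompact K → ∀ M : ℝ, ∀ᶠ k in atTop, ∀ z ∈ K, M ≤ ‖g (φ k) z‖))

/-- The Fatou set: points with an open neighbourhood on which the iterates `f^n`, `n ≥ 1`,
form a normal family. -/
def fatouSet (f : ℂ → ℂ) : Set ℂ :=
  {z | ∃ V : Set ℂ, IsOpen V ∧ z ∈ V ∧ IsNormalOn {g | ∃ n : ℕ, 1 ≤ n ∧ g = f^[n]} V}

/-- The Julia set. -/
def juliaSet (f : ℂ → ℂ) : Set ℂ := (fatouSet f)ᶜ

/-- `U` is a connected component of the set `S`. -/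
def IsComponent (S U : Set ℂ) : Prop := ∃ x ∈ S, U = connectedComponentIn S x

end Pool.Agent.MP_aa8c71_an.H58
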